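import Pool.Agent.H546R4.Main1

set_option autoImplicit false

namespace Pool.Agent.H546R4

open Polynomial

section

variable {k R : Type*} [Field k] [CommRing R] [Algebra k R]

lemma step [CharZero k] (𝔞 : Ideal R) (hnil : ∀ x ∈ 𝔞, IsNilpotent x) (hsq : 𝔞 * 𝔞 = 𝔞)
    (c : R) (S : Subalgebra k R) (hfin : Module.Finite k S) (hc : c ∉ S) (w : R) (hw : w ∈ S)
    (hwa : ∃ a ∈ 𝔞, w * a ≠ 0) :
    ∃ (S' : Subalgebra k R) (z : R), Module.Finite k S' ∧ c ∉ S' ∧ S ≤ S' ∧ z ∈ 𝔞 ∧ z ∈ S' ∧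
      ∃ a ∈ 𝔞, w * z * a ≠ 0 := by
  classical
  have hja : 𝔞 ≤ Ideal.jacobson ⊥ := by
    intro x hx
    have : x ∈ nilradical R := hnil x hx
    exact Ideal.radical_le_jacobson this
  -- find p, a', a''
  obtain ⟨p, hp, a', ha', a'', ha'', hne⟩ : ∃ p ∈ 𝔞, ∃ a' ∈ 𝔞, ∃ a'' ∈ 𝔞,
      w * (p * a') * a'' ≠ 0 := by
    by_contra hcon
    push Not at hcon
    obtain ⟨a, ha, hwa⟩ := hwa
    apply hwa
    have h1 : 𝔞 * (𝔞 * 𝔞) ≤ LinearMap.ker (LinearMap.mulLeft R w) := by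
      rw [Ideal.mul_le]
      intro r hr s hs
      have h2 : 𝔞 * 𝔞 ≤ LinearMap.ker (LinearMap.mulLeft R (w * r)) := by
        rw [Ideal.mul_le]
        intro r' hr' s' hs'
        rw [LinearMap.mem_ker, LinearMap.mulLeft_apply]
        have := hcon r hr r' hr' s' hs'
        rw [← this]; ring
      have h3 := h2 hs
      rw [LinearMap.mem_ker, LinearMap.mulLeft_apply] at h3 ⊢
      rw [← mul_assoc]; exact h3
    rw [hsq, hsq] at h1
    exact h1 ha
  obtain ⟨D, hD⟩ := hnil p hp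
  let P : Ideal R := Ideal.span {p} * 𝔞
  have hP𝔞 : P ≤ 𝔞 := Ideal.mul_le_right.trans le_rfl
  have hP : P ≤ 𝔞 • P := by
    rw [smul_eq_mul]
    have : 𝔞 * P = P := by
      simp only [P]
      rw [mul_comm, mul_assoc, hsq]
    rw [this]
  have hPnil : ∀ z ∈ P, ∀ i, D < i → z ^ i = 0 := by
    intro z hz i hi
    obtain ⟨b, _, rfl⟩ := Ideal.mem_span_singleton_mul.1 hz
    rw [mul_pow, pow_eq_zero_of_le hi.le hD, zero_mul]
  let M : Submodule k R :=
    { carrier := {z | ∀ a ∈ 𝔞, w * z * a = 0}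
      add_mem' := by
        intro x y hx hy a ha
        rw [mul_add, add_mul, hx a ha, hy a ha, add_zero]
      zero_mem' := by intro a _; simp
      smul_mem' := by
        intro t x hx a ha
        rw [mul_smul_comm, smul_mul_assoc, hx a ha, smul_zero] }
  have hPM : ∃ z ∈ P.restrictScalars k, z ∉ M := by
    refine ⟨p * a', Ideal.mul_mem_mul (Ideal.mem_span_singleton_self p) ha', ?_⟩
    intro h
    exact hne (h a'' ha'')
  have hfin' : Module.Finite k (Subalgebra.toSubmodule S) := hfin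
  obtain ⟨z, hzP, hzM, hz⟩ := key (Subalgebra.toSubmodule S) D c (P.restrictScalars k) M
    (fun x h y hy => hN_of (k := k) 𝔞 P hja hP x h y hy) hPM hc
  have hzP' : z ∈ P := hzP
  let S' : Subalgebra k R := (Algebra.adjoin S {z}).restrictScalars k
  have hrep : ∀ x ∈ S', ∃ g : Fin (D+1) → (Subalgebra.toSubmodule S),
      x = ∑ j, (g j : R) * z ^ (j : ℕ) := by
    intro x hx
    have hx' : x ∈ Algebra.adjoin S {z} := hx
    rw [Algebra.adjoin_singleton_eq_range_aeval] at hx'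
    obtain ⟨q, rfl⟩ := hx'
    refine ⟨fun j => ⟨((q.coeff j : S) : R), (q.coeff j).2⟩, ?_⟩
    have h1 : (aeval z q : R) = ∑ i ∈ Finset.range (max (q.natDegree + 1) (D + 1)),
        ((q.coeff i : S) : R) * z ^ i := by
      rw [aeval_eq_sum_range' (lt_of_lt_of_le (Nat.lt_succ_self _) (le_max_left _ (D+1)))]
      rfl
    have h2 : ∑ i ∈ Finset.range (max (q.natDegree + 1) (D + 1)),
        ((q.coeff i : S) : R) * z ^ i = ∑ i ∈ Finset.range (D + 1), ((q.coeff i : S) : R) * z ^ i := by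
      symm
      apply Finset.sum_subset
      · exact Finset.range_mono (le_max_right _ _)
      · intro i _ hi
        rw [Finset.mem_range, not_lt] at hi
        rw [hPnil z hzP' i (by omega), mul_zero]
    change (aeval z q : R) = _
    rw [h1, h2, Finset.sum_range]
  have hSS' : S ≤ S' := by
    intro x hx
    exact Subalgebra.algebraMap_mem (Algebra.adjoin S {z}) (⟨x, hx⟩ : S)
  have hzS' : z ∈ S' := Algebra.subset_adjoin (Set.mem_singleton z)
  refine ⟨S', z, ?_, ?_, hSS', hP𝔞 hzP', hzS', ?_⟩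
  · have hle : Subalgebra.toSubmodule S' ≤ LinearMap.range (ev (Subalgebra.toSubmodule S) D 0 z) := by
      intro x hx
      obtain ⟨g, hg⟩ := hrep x hx
      refine ⟨(g, 0), ?_⟩
      simp only [ev, LinearMap.coe_mk, AddHom.coe_mk, zero_smul, sub_zero]
      exact hg.symm
    exact Submodule.finiteDimensional_of_le hle
  · intro h
    obtain ⟨g, hg⟩ := hrep c h
    exact hz g hg
  · by_contra hcon
    push Not at hcon
    exact hzM hcon

lemma chain [CharZero k] (𝔞 : Ideal R) (hnil : ∀ x ∈ 𝔞, IsNilpotent x) (hsq : 𝔞 * 𝔞 = 𝔞)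
    (h0 : 𝔞 ≠ ⊥) (c : R) (hc : c ∉ (⊥ : Subalgebra k R)) :
    ∃ (S : Subalgebra k R) (z : ℕ → R), c ∉ S ∧ (∀ n, z n ∈ 𝔞 ∧ z n ∈ S) ∧
      ∀ n, ∏ i ∈ Finset.range n, z i ≠ 0 := by
  classical
  let T := {s : Subalgebra k R × R // Module.Finite k s.1 ∧ c ∉ s.1 ∧ s.2 ∈ s.1 ∧
    ∃ a ∈ 𝔞, s.2 * a ≠ 0}
  have hstep : ∀ s : T, ∃ (s' : T) (z : R), s.1.1 ≤ s'.1.1 ∧ z ∈ 𝔞 ∧ z ∈ s'.1.1 ∧
      s'.1.2 = s.1.2 * z := by
    rintro ⟨⟨S, w⟩, hS1, hS2, hS3, hS4⟩
    obtain ⟨S', z, h1, h2, h3, h4, h5, h6⟩ := step 𝔞 hnil hsq c S hS1 hS2 w hS3 hS4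
    exact ⟨⟨⟨S', w * z⟩, h1, h2, S'.mul_mem (h3 hS3) h5, h6⟩, z, h3, h4, h5, rfl⟩
  choose f z hf1 hf2 hf3 hf4 using hstep
  obtain ⟨a, ha, hane⟩ := Submodule.exists_mem_ne_zero_of_ne_bot h0
  let s0 : T := ⟨⟨⊥, 1⟩, inferInstance, hc, Subalgebra.one_mem _, a, ha, by
    change (1 : R) * a ≠ 0
    rw [one_mul]; exact hane⟩
  let seq : ℕ → T := fun n => Nat.rec s0 (fun _ s => f s) n
  have hseq : ∀ n, seq (n+1) = f (seq n) := fun n => rfl
  have hmono : Monotone (fun n => (seq n).1.1) := by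
    apply monotone_nat_of_le_succ
    intro n
    rw [hseq]
    exact hf1 (seq n)
  refine ⟨⨆ n, (seq n).1.1, fun n => z (seq n), ?_, ?_, ?_⟩
  · intro h
    have hdir : Directed (· ≤ ·) (fun n => (seq n).1.1) := hmono.directed_le
    have h' : c ∈ ((⨆ n, (seq n).1.1 : Subalgebra k R) : Set R) := h
    rw [Subalgebra.coe_iSup_of_directed hdir] at h'
    obtain ⟨n, hn⟩ := Set.mem_iUnion.1 h'
    exact (seq n).2.2.1 hn
  · intro n
    refine ⟨hf2 _, ?_⟩
    have h1 := hf3 (seq n)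
    rw [← hseq] at h1
    exact (le_iSup (fun n => (seq n).1.1) (n+1)) h1
  · intro n
    have hw : ∀ n, (seq n).1.2 = ∏ i ∈ Finset.range n, z (seq i) := by
      intro n
      induction n with
      | zero => simp [seq, s0]
      | succ n ih => rw [hseq, hf4, ih, Finset.prod_range_succ]
    rw [← hw]
    intro h
    obtain ⟨b, _, hb⟩ := (seq n).2.2.2.2
    apply hb
    rw [h, zero_mul]

end

end Pool.Agent.H546R4
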