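import Pool.Agent.H546R4.NonUnital

set_option autoImplicit false

namespace Pool.Agent.H546R4

section

variable {k A C : Type*} [Field k] [NonUnitalRing A] [Module k A] [IsScalarTower k A A]
  [SMulCommClass k A A] [NonUnitalCommRing C] [Module k C] [IsScalarTower k C C]
  [SMulCommClass k C C]

lemma map_foldl' (f : A →ₙₐ[k] C) (l : List A) : ∀ a : A,
    f (l.foldl (fun x y => x * y) a) = (l.map f).foldl (fun x y => x * y) (f a) := by
  induction l with
  | nil => intro a; rfl
  | cons b l ih =>
    intro a
    rw [List.foldl_cons, ih, map_mul, List.map_cons, List.foldl_cons]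

lemma pair_up (B : NonUnitalSubalgebra k A) (hB : ∀ x y : A, x * y ∈ B) (m : ℕ) :
    ∀ (l : List A), l.length = 2 * m → ∀ a : A, ∃ l' : List A, (∀ x ∈ l', x ∈ B) ∧
      l'.length = m ∧ l.foldl (fun x y => x * y) a = l'.foldl (fun x y => x * y) a := by
  induction m with
  | zero =>
    intro l hl a
    have : l = [] := List.length_eq_zero_iff.1 (by omega)
    exact ⟨[], by simp, rfl, by rw [this]⟩
  | succ m ih =>
    intro l hl a
    match l, hl with
    | x :: y :: l, hl =>
      obtain ⟨l', h1, h2, h3⟩ := ih l (by simp only [List.length_cons] at hl; omega) (a * (x * y))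
      refine ⟨(x * y) :: l', ?_, by simp [h2], ?_⟩
      · intro t ht
        rcases List.mem_cons.1 ht with rfl | ht
        · exact hB x y
        · exact h1 t ht
      · rw [List.foldl_cons, List.foldl_cons, List.foldl_cons, mul_assoc, h3]

lemma nilp_of_sq (B : NonUnitalSubalgebra k A) (hB : ∀ x y : A, x * y ∈ B) (h : Nilp B) :
    Nilp (⊤ : NonUnitalSubalgebra k A) := by
  obtain ⟨n, hn⟩ := h
  refine ⟨2 * n + 1, ?_⟩
  intro a _ l _ hl
  match l, hl with
  | x :: l, hl =>
    obtain ⟨l', h1, h2, h3⟩ := pair_up B hB n l (by simp only [List.length_cons] at hl; omega)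
      (a * x)
    rw [List.foldl_cons, h3]
    exact hn _ (hB a x) l' h1 h2

lemma sq_ne (hC : Nilp (⊤ : NonUnitalSubalgebra k C)) [Nontrivial C] :
    part (aug k C * aug k C) ≠ (⊤ : NonUnitalSubalgebra k C) := by
  intro htop
  have hle : aug k C ≤ aug k C * aug k C := by
    intro x hx
    obtain ⟨a, rfl⟩ := mem_aug hx
    have : a ∈ part (aug k C * aug k C) := by rw [htop]; exact NonUnitalAlgebra.mem_top
    exact this
  have hid : IsIdempotentElem (aug k C) := le_antisymm Ideal.mul_le_right hle
  have hpart : part (aug k C) = (⊤ : NonUnitalSubalgebra k C) := by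
    rw [eq_top_iff]
    intro x _
    exact inr_mem_aug x
  obtain ⟨n, hn⟩ := pow_of_nilp (aug k C) le_rfl (by rw [hpart]; exact hC)
  have h1 : (aug k C) ^ (n + 1) = ⊥ := by rw [pow_succ, hn]; simp
  rw [hid.pow_succ_eq] at h1
  obtain ⟨x, hx⟩ := exists_ne (0 : C)
  apply hx
  have : (x : Unitization k C) ∈ aug k C := inr_mem_aug x
  rw [h1, Submodule.mem_bot] at this
  apply Unitization.inr_injective (R := k)
  rw [this, Unitization.inr_zero]

theorem image_thm [CharZero k] (hdim : 1 < Module.rank k A)
    (hprop : ∀ B : NonUnitalSubalgebra k A, B ≠ ⊤ → Nilp B) [Nontrivial C]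
    (f : A →ₙₐ[k] C) (hf : Function.Surjective f) : Nilp (⊤ : NonUnitalSubalgebra k A) := by
  classical
  by_contra hA
  -- proper subalgebras of C are nilpotent
  have hpropC : ∀ B : NonUnitalSubalgebra k C, B ≠ ⊤ → Nilp B := by
    intro B' hB'
    have hne : B'.comap f ≠ ⊤ := by
      intro h
      apply hB'
      rw [eq_top_iff]
      intro x _
      obtain ⟨a, rfl⟩ := hf x
      have : a ∈ B'.comap f := by rw [h]; exact NonUnitalAlgebra.mem_top
      exact this
    obtain ⟨n, hn⟩ := hprop _ hne
    refine ⟨n, ?_⟩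
    intro c hc l hl hlen
    choose g hg using hf
    have h1 := hn (g c) (by rw [NonUnitalSubalgebra.mem_comap, hg]; exact hc) (l.map g) (by
      intro x hx
      rw [List.mem_map] at hx
      obtain ⟨y, hy, rfl⟩ := hx
      rw [NonUnitalSubalgebra.mem_comap, hg]
      exact hl y hy) (by rw [List.length_map, hlen])
    have h2 := congrArg f h1
    rw [map_foldl', map_zero, hg, List.map_map] at h2
    have h3 : l.map (f ∘ g) = l := by
      have : (f ∘ g : C → C) = id := by funext x; exact hg x
      rw [this, List.map_id]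
    rwa [h3] at h2
  -- C is not nilpotent
  have hC : ¬ Nilp (⊤ : NonUnitalSubalgebra k C) := by
    intro hCn
    apply hA
    have hne : (part (aug k C * aug k C)).comap f ≠ ⊤ := by
      intro h
      apply sq_ne hCn
      rw [eq_top_iff]
      intro x _
      obtain ⟨a, rfl⟩ := hf x
      have : a ∈ (part (aug k C * aug k C)).comap f := by
        rw [h]; exact NonUnitalAlgebra.mem_top
      exact this
    refine nilp_of_sq ((part (aug k C * aug k C)).comap f) ?_ (hprop _ hne)
    intro x y
    rw [NonUnitalSubalgebra.mem_comap, map_mul]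
    change ((f x * f y : C) : Unitization k C) ∈ aug k C * aug k C
    rw [Unitization.inr_mul]
    exact Ideal.mul_mem_mul (inr_mem_aug _) (inr_mem_aug _)
  obtain ⟨e, he0, hee, _⟩ := comm_thm hpropC hC
  obtain ⟨a, rfl⟩ := hf e
  -- the subalgebra generated by a is everything
  have htop : NonUnitalAlgebra.adjoin k {a} = ⊤ := by
    by_contra hne
    obtain ⟨n, hn⟩ := hprop _ hne
    have ham : a ∈ NonUnitalAlgebra.adjoin k {a} :=
      NonUnitalAlgebra.subset_adjoin k (Set.mem_singleton a)
    have h1 := hn a ham (List.replicate n a) (by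
      intro x hx
      rw [List.eq_of_mem_replicate hx]; exact ham) (by simp)
    have h2 := congrArg f h1
    rw [map_foldl', map_zero, List.map_replicate] at h2
    have h3 : ∀ m, (List.replicate m (f a)).foldl (fun x y => x * y) (f a) = f a := by
      intro m
      induction m with
      | zero => rfl
      | succ m ih => rw [List.replicate_succ, List.foldl_cons, hee, ih]
    rw [h3] at h2
    exact he0 h2
  have hcomm1 : ∀ x ∈ NonUnitalAlgebra.adjoin k {a}, x * a = a * x := by
    intro x hx
    induction hx using NonUnitalAlgebra.adjoin_induction with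
    | mem x hx => rw [Set.mem_singleton_iff.1 hx]
    | add x y _ _ hx hy => rw [add_mul, mul_add, hx, hy]
    | zero => rw [zero_mul, mul_zero]
    | mul x y _ _ hx hy => rw [mul_assoc, hy, ← mul_assoc, hx, mul_assoc]
    | smul t x _ hx => rw [smul_mul_assoc, hx, mul_smul_comm]
  have hcomm2 : ∀ y ∈ NonUnitalAlgebra.adjoin k {a}, ∀ x : A, x * y = y * x := by
    intro y hy
    induction hy using NonUnitalAlgebra.adjoin_induction with
    | mem y hy =>
      intro x
      rw [Set.mem_singleton_iff.1 hy]
      exact hcomm1 x (by rw [htop]; exact NonUnitalAlgebra.mem_top)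
    | add y z _ _ hy hz => intro x; rw [mul_add, add_mul, hy, hz]
    | zero => intro x; rw [zero_mul, mul_zero]
    | mul y z _ _ hy hz => intro x; rw [← mul_assoc, hy, mul_assoc, hz, mul_assoc]
    | smul t y _ hy => intro x; rw [mul_smul_comm, hy, smul_mul_assoc]
  have hcomm : ∀ x y : A, x * y = y * x := fun x y =>
    hcomm2 y (by rw [htop]; exact NonUnitalAlgebra.mem_top) x
  letI inst : NonUnitalCommRing A := { ‹NonUnitalRing A› with mul_comm := hcomm }
  obtain ⟨e', _, _, he'⟩ := comm_thm (k := k) (A := A) hprop hA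
  have hle : Module.rank k A ≤ 1 := by
    rw [rank_le_one_iff]
    refine ⟨e', fun v => ?_⟩
    obtain ⟨t, ht⟩ := he' v
    exact ⟨t, ht.symm⟩
  exact absurd hdim (not_lt.2 hle)

end

end Pool.Agent.H546R4
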