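import Mathlib

set_option autoImplicit false

namespace Pool.Agent.H546R4

open Polynomial

section

variable {k R : Type*} [Field k] [CommRing R] [Algebra k R]

/-- apply a linear functional to the coefficients of a polynomial -/
noncomputable def fpoly (f : R →ₗ[k] k) (p : R[X]) : k[X] :=
  p.sum fun i a => C (f a) * X ^ i

lemma fpoly_eval (f : R →ₗ[k] k) (p : R[X]) (t : k) :
    (fpoly f p).eval t = f (p.eval (algebraMap k R t)) := by
  classical
  rw [fpoly, Polynomial.sum_def, Polynomial.eval_finsetSum, Polynomial.eval_eq_sum (p := p),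
    Polynomial.sum_def, map_sum]
  refine Finset.sum_congr rfl fun i _ => ?_
  rw [eval_mul, eval_C, eval_pow, eval_X, ← map_pow, mul_comm (p.coeff i), ← Algebra.smul_def,
    map_smul, smul_eq_mul, mul_comm]

lemma exists_good {n : ℕ} (p : Fin n → R[X])
    (h : LinearIndependent k (fun j => (p j).eval 0)) :
    ∃ q : k[X], q ≠ 0 ∧ ∀ t : k, q.eval t ≠ 0 →
      LinearIndependent k (fun j => (p j).eval (algebraMap k R t)) := by
  classical
  have hinj : Function.Injective (Fintype.linearCombination k (fun j => (p j).eval 0)) :=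
    linearIndependent_iff_injective_fintypeLinearCombination.1 h
  obtain ⟨π, hπ⟩ := LinearMap.exists_leftInverse_of_injective
    (Fintype.linearCombination k (fun j => (p j).eval 0)) (LinearMap.ker_eq_bot.2 hinj)
  have hπ' : ∀ j, π ((p j).eval 0) = Pi.single j 1 := by
    intro j
    have := LinearMap.congr_fun hπ (Pi.single j 1)
    simpa [Fintype.linearCombination_apply_single] using this
  let f : Fin n → (R →ₗ[k] k) := fun i => (LinearMap.proj i).comp π
  let N : Matrix (Fin n) (Fin n) k[X] := Matrix.of fun i j => fpoly (f i) (p j)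
  have hN : ∀ t : k, ∀ i j, (N.map (Polynomial.eval t)) i j
      = f i ((p j).eval (algebraMap k R t)) := by
    intro t i j
    simp only [N, Matrix.map_apply, Matrix.of_apply, fpoly_eval]
  have hdet : ∀ t : k, N.det.eval t = (N.map (Polynomial.eval t)).det := by
    intro t
    have := RingHom.map_det (Polynomial.evalRingHom t) N
    simpa using this
  refine ⟨N.det, ?_, ?_⟩
  · intro h0
    have h1 : N.det.eval 0 = 1 := by
      rw [hdet 0]
      have : (N.map (Polynomial.eval 0)) = 1 := by
        ext i j
        rw [hN, map_zero]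
        simp only [f, LinearMap.comp_apply, LinearMap.proj_apply, hπ']
        rw [Matrix.one_apply, Pi.single_apply]
      rw [this, Matrix.det_one]
    rw [h0] at h1
    simp at h1
  · intro t ht
    rw [Fintype.linearIndependent_iff]
    intro a ha
    rw [hdet] at ht
    have hmv : (N.map (Polynomial.eval t)).mulVec a = 0 := by
      funext i
      simp only [Matrix.mulVec, dotProduct, hN, Pi.zero_apply]
      have := congrArg (f i) ha
      rw [map_sum, map_zero] at this
      rw [← this]
      refine Finset.sum_congr rfl fun j _ => ?_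
      rw [map_smul, smul_eq_mul, mul_comm]
    have := Matrix.eq_zero_of_mulVec_eq_zero ht hmv
    intro i
    exact congrFun this i

variable (S : Submodule k R) (D : ℕ) (c : R)

/-- evaluation `(g, μ) ↦ ∑ g_j z^j - μ c` -/
noncomputable def ev (z : R) : ((Fin (D+1) → S) × k) →ₗ[k] R where
  toFun gm := (∑ j, (gm.1 j : R) * z ^ (j : ℕ)) - gm.2 • c
  map_add' x y := by
    simp only [Prod.fst_add, Pi.add_apply, Submodule.coe_add, add_mul, Finset.sum_add_distrib,
      Prod.snd_add, add_smul]
    ring
  map_smul' t x := by
    simp only [Prod.smul_fst, Pi.smul_apply, Submodule.coe_smul, Algebra.smul_mul_assoc,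
      ← Finset.smul_sum, Prod.smul_snd, smul_eq_mul, mul_smul, RingHom.id_apply, smul_sub]

noncomputable def evp (z y : R) (gm : (Fin (D+1) → S) × k) : R[X] :=
  (∑ j, C (gm.1 j : R) * (C z + X * C y) ^ (j : ℕ)) - C (gm.2 • c)

lemma evp_eval (z y : R) (gm : (Fin (D+1) → S) × k) (t : k) :
    (evp S D c z y gm).eval (algebraMap k R t) = ev S D c (z + t • y) gm := by
  simp only [evp, ev, eval_sub, eval_finsetSum, eval_mul, eval_C, eval_pow, eval_add, eval_X,
    LinearMap.coe_mk, AddHom.coe_mk, Algebra.smul_def]

lemma evp_eval_zero (z y : R) (gm : (Fin (D+1) → S) × k) :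
    (evp S D c z y gm).eval 0 = ev S D c z gm := by
  have := evp_eval S D c z y gm 0
  rwa [map_zero, zero_smul, add_zero] at this

lemma evp_coeff_one (z y : R) (gm : (Fin (D+1) → S) × k) :
    (evp S D c z y gm).coeff 1 = (∑ j : Fin (D+1), ((j : ℕ) : R) * (gm.1 j : R) * z ^ ((j : ℕ) - 1)) * y := by
  have h1 : (evp S D c z y gm).coeff 1 = (derivative (evp S D c z y gm)).eval 0 := by
    rw [← coeff_zero_eq_eval_zero, coeff_derivative]; simp
  rw [h1, evp]
  simp only [derivative_sub, derivative_sum, derivative_mul, derivative_C, zero_mul, zero_add,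
    derivative_pow, derivative_add, derivative_X, one_mul, mul_zero, add_zero,
    eval_sub, eval_finsetSum, eval_mul, eval_C, eval_pow, eval_add, eval_X, eval_zero, sub_zero,
    eval_natCast, Finset.sum_mul]
  refine Finset.sum_congr rfl fun j _ => ?_
  ring

lemma key_deriv [Infinite k] [Module.Finite k S] (P M : Submodule k R) (z0 : R) (hz0 : z0 ∈ P)
    (hz0M : z0 ∉ M)
    (hmax : ∀ z ∈ P, z ∉ M → Module.finrank k (LinearMap.range (ev S D c z))
      ≤ Module.finrank k (LinearMap.range (ev S D c z0)))
    (gm : (Fin (D+1) → S) × k) (h : ev S D c z0 gm = 0) (y : R) (hy : y ∈ P) :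
    (∑ j : Fin (D+1), ((j : ℕ) : R) * (gm.1 j : R) * z0 ^ ((j : ℕ) - 1)) * y
      ∈ LinearMap.range (ev S D c z0) := by
  classical
  by_contra hcon
  set W := LinearMap.range (ev S D c z0) with hW
  let b := Module.finBasis k W
  have hb : ∀ i, ∃ u, ev S D c z0 u = (b i : R) := fun i => (b i).2
  choose u hu using hb
  let p : Fin (Module.finrank k W + 1) → R[X] :=
    Fin.cons (evp S D c z0 y gm).divX (fun i => evp S D c z0 y (u i))
  have hp0 : (fun j => (p j).eval 0) = Fin.cons ((evp S D c z0 y gm).coeff 1)
      (fun i => (b i : R)) := by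
    funext j
    refine Fin.cases ?_ (fun i => ?_) j
    · simp only [p, Fin.cons_zero]
      rw [← coeff_zero_eq_eval_zero, coeff_divX]
    · simp only [p, Fin.cons_succ]
      rw [evp_eval_zero, hu]
  have hind : LinearIndependent k (fun j => (p j).eval 0) := by
    rw [hp0, linearIndependent_fin_cons]
    constructor
    · exact b.linearIndependent.map' W.subtype (Submodule.ker_subtype W)
    · intro hmem
      apply hcon
      rw [evp_coeff_one] at hmem
      have hle : Submodule.span k (Set.range fun i => (b i : R)) ≤ W := by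
        rw [Submodule.span_le]
        rintro _ ⟨i, rfl⟩
        exact (b i).2
      exact hle hmem
  obtain ⟨q, hq0, hq⟩ := exists_good p hind
  -- choose t
  have hsub : {t : k | z0 + t • y ∈ M}.Subsingleton := by
    intro t ht t' ht'
    by_contra hne
    have h1 : (t - t') • y ∈ M := by
      have := M.sub_mem ht ht'
      rwa [add_sub_add_left_eq_sub, ← sub_smul] at this
    have h2 : y ∈ M := (M.smul_mem_iff (sub_ne_zero.2 hne)).1 h1
    apply hz0M
    have := M.sub_mem ht (M.smul_mem t h2)
    rwa [add_sub_cancel_right] at this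
  have hfin : ({t : k | q.IsRoot t} ∪ {0} ∪ {t : k | z0 + t • y ∈ M}).Finite :=
    ((Polynomial.finite_setOf_isRoot hq0).union (Set.finite_singleton 0)).union hsub.finite
  obtain ⟨t, ht⟩ := hfin.infinite_compl.nonempty
  simp only [Set.mem_compl_iff, Set.mem_union, Set.mem_setOf_eq, Set.mem_singleton_iff,
    not_or, Polynomial.IsRoot.def] at ht
  obtain ⟨⟨ht1, ht2⟩, ht3⟩ := ht
  have hli := hq t ht1
  have hmem : ∀ j, (p j).eval (algebraMap k R t) ∈ LinearMap.range (ev S D c (z0 + t • y)) := by
    intro j
    refine Fin.cases ?_ (fun i => ?_) j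
    · simp only [p, Fin.cons_zero]
      have h1 : (evp S D c z0 y gm).divX * X = evp S D c z0 y gm := by
        conv_rhs => rw [← divX_mul_X_add (evp S D c z0 y gm)]
        rw [coeff_zero_eq_eval_zero, evp_eval_zero, h, C_0, add_zero]
      have h2 : t • ((evp S D c z0 y gm).divX).eval (algebraMap k R t)
          = ev S D c (z0 + t • y) gm := by
        rw [← evp_eval, ← congrArg (eval (algebraMap k R t)) h1, eval_mul, eval_X,
          Algebra.smul_def, mul_comm]
      have h3 : ((evp S D c z0 y gm).divX).eval (algebraMap k R t)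
          = t⁻¹ • ev S D c (z0 + t • y) gm := by
        rw [← h2, smul_smul, inv_mul_cancel₀ ht2, one_smul]
      rw [h3]
      exact Submodule.smul_mem _ _ ⟨gm, rfl⟩
    · simp only [p, Fin.cons_succ]
      rw [evp_eval]
      exact ⟨u i, rfl⟩
  have hle := hmax (z0 + t • y) (P.add_mem hz0 (P.smul_mem t hy)) ht3
  let v : Fin (Module.finrank k W + 1) → LinearMap.range (ev S D c (z0 + t • y)) :=
    fun j => ⟨_, hmem j⟩
  have hv : LinearIndependent k v := by
    apply LinearIndependent.of_comp (LinearMap.range (ev S D c (z0 + t • y))).subtype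
    exact hli
  have := hv.fintype_card_le_finrank
  rw [Fintype.card_fin] at this
  omega

end

end Pool.Agent.H546R4
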