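import Pool.Agent.H546R4.Key

set_option autoImplicit false

namespace Pool.Agent.H546R4

open Polynomial

section

variable {k R : Type*} [Field k] [CommRing R] [Algebra k R]

lemma theta_step [Infinite k] (S : Submodule k R) [Module.Finite k S] (D : ℕ) (c : R)
    (P M : Submodule k R)
    (hN : ∀ x : R, (∃ W : Submodule k R, Module.Finite k W ∧ ∀ y ∈ P, x * y ∈ W) →
      ∀ y ∈ P, x * y = 0)
    (z0 : R) (hz0 : z0 ∈ P) (hz0M : z0 ∉ M)
    (hmax : ∀ z ∈ P, z ∉ M → Module.finrank k (LinearMap.range (ev S D c z))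
      ≤ Module.finrank k (LinearMap.range (ev S D c z0)))
    (gm : (Fin (D+1) → S) × k) (h : ev S D c z0 gm = 0) :
    ev S D c z0 (fun j => (((j : ℕ) : k)) • gm.1 j, 0) = 0 := by
  have h1 := hN (∑ j : Fin (D+1), ((j : ℕ) : R) * (gm.1 j : R) * z0 ^ ((j : ℕ) - 1))
    ⟨LinearMap.range (ev S D c z0), inferInstance,
      fun y hy => key_deriv S D c P M z0 hz0 hz0M hmax gm h y hy⟩ z0 hz0
  have h2 : ev S D c z0 (fun j => (((j : ℕ) : k)) • gm.1 j, 0) =
      (∑ j : Fin (D+1), ((j : ℕ) : R) * (gm.1 j : R) * z0 ^ ((j : ℕ) - 1)) * z0 := by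
    simp only [ev, LinearMap.coe_mk, AddHom.coe_mk, zero_smul, sub_zero, Finset.sum_mul]
    refine Finset.sum_congr rfl fun j _ => ?_
    rw [Submodule.coe_smul, Algebra.smul_def, map_natCast]
    rcases Nat.eq_zero_or_pos (j : ℕ) with hj | hj
    · rw [hj]; simp
    · rw [mul_assoc (((j : ℕ) : R) * (gm.1 j : R)), ← pow_succ, Nat.sub_add_cancel hj]
  rw [h2, h1]

lemma key [CharZero k] (S : Submodule k R) [Module.Finite k S] (D : ℕ) (c : R)
    (P M : Submodule k R)
    (hN : ∀ x : R, (∃ W : Submodule k R, Module.Finite k W ∧ ∀ y ∈ P, x * y ∈ W) →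
      ∀ y ∈ P, x * y = 0)
    (hPM : ∃ z ∈ P, z ∉ M) (hc : c ∉ S) :
    ∃ z ∈ P, z ∉ M ∧ ∀ g : Fin (D+1) → S, c ≠ ∑ j, (g j : R) * z ^ (j : ℕ) := by
  classical
  set B := Module.finrank k ((Fin (D+1) → S) × k) with hB
  have hle : ∀ z, Module.finrank k (LinearMap.range (ev S D c z)) ≤ B := fun z =>
    LinearMap.finrank_range_le _
  have hex : ∃ n, ∃ z ∈ P, z ∉ M ∧ n = B - Module.finrank k (LinearMap.range (ev S D c z)) := by
    obtain ⟨z, hz, hzM⟩ := hPM
    exact ⟨_, z, hz, hzM, rfl⟩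
  obtain ⟨z0, hz0, hz0M, hn⟩ := Nat.find_spec hex
  have hmax : ∀ z ∈ P, z ∉ M → Module.finrank k (LinearMap.range (ev S D c z))
      ≤ Module.finrank k (LinearMap.range (ev S D c z0)) := by
    intro z hz hzM
    have h1 := Nat.find_min' hex ⟨z, hz, hzM, rfl⟩
    rw [hn] at h1
    have h2 := hle z
    have h3 := hle z0
    omega
  refine ⟨z0, hz0, hz0M, ?_⟩
  intro g hg
  apply hc
  have hstep := theta_step S D c P M hN z0 hz0 hz0M hmax
  have h0 : ev S D c z0 (g, 1) = 0 := by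
    simp only [ev, LinearMap.coe_mk, AddHom.coe_mk, one_smul]
    rw [← hg, sub_self]
  have hi : ∀ i : ℕ, ev S D c z0 (fun j => (((j : ℕ) : k)) ^ (i+1) • g j, 0) = 0 := by
    intro i
    induction i with
    | zero => simpa using hstep _ h0
    | succ i ih =>
      have := hstep _ ih
      simp only [smul_smul, ← pow_succ'] at this
      exact this
  have hi' : ∀ i : ℕ, ∑ j : Fin (D+1), ((((j : ℕ) : k)) ^ (i+1)) • ((g j : R) * z0 ^ (j : ℕ)) = 0 := by
    intro i
    have := hi i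
    simp only [ev, LinearMap.coe_mk, AddHom.coe_mk, zero_smul, sub_zero, Submodule.coe_smul,
      Algebra.smul_mul_assoc] at this
    exact this
  have hpoly : ∀ p : k[X], p.eval 0 = 0 →
      ∑ j : Fin (D+1), (p.eval ((j : ℕ) : k)) • ((g j : R) * z0 ^ (j : ℕ)) = 0 := by
    intro p hp
    have h1 : ∀ j : Fin (D+1), (p.eval ((j : ℕ) : k)) • ((g j : R) * z0 ^ (j : ℕ))
        = ∑ i ∈ Finset.range (p.natDegree + 1),
          p.coeff i • ((((j : ℕ) : k)) ^ i • ((g j : R) * z0 ^ (j : ℕ))) := by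
      intro j
      rw [Polynomial.eval_eq_sum_range, Finset.sum_smul]
      refine Finset.sum_congr rfl fun i _ => ?_
      rw [mul_smul]
    rw [Finset.sum_congr rfl fun j _ => h1 j, Finset.sum_comm]
    refine Finset.sum_eq_zero fun i _ => ?_
    rw [← Finset.smul_sum]
    rcases Nat.eq_zero_or_pos i with hi0 | hi0
    · rw [hi0, coeff_zero_eq_eval_zero, hp, zero_smul]
    · obtain ⟨i', rfl⟩ : ∃ i', i = i' + 1 := ⟨i - 1, by omega⟩
      rw [hi' i', smul_zero]
  have hzero : ∀ j0 : Fin (D+1), j0 ≠ 0 → (g j0 : R) * z0 ^ (j0 : ℕ) = 0 := by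
    intro j0 hj0
    let p : k[X] := ∏ l ∈ Finset.univ.erase j0, (X - C (((l : Fin (D+1)) : ℕ) : k))
    have hp : p.eval 0 = 0 := by
      simp only [p, eval_prod]
      refine Finset.prod_eq_zero (i := (0 : Fin (D+1))) ?_ ?_
      · exact Finset.mem_erase.2 ⟨fun h => hj0 h.symm, Finset.mem_univ _⟩
      · simp
    have h1 := hpoly p hp
    rw [Finset.sum_eq_single j0] at h1
    · refine (smul_eq_zero.1 h1).resolve_left ?_
      simp only [p, eval_prod, eval_sub, eval_X, eval_C]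
      refine Finset.prod_ne_zero_iff.2 ?_
      intro l hl
      rw [sub_ne_zero]
      intro h
      have h' : (j0 : ℕ) = (l : ℕ) := by exact_mod_cast h
      exact (Finset.mem_erase.1 hl).1 (Fin.ext h'.symm)
    · intro j _ hj
      have : p.eval ((j : ℕ) : k) = 0 := by
        simp only [p, eval_prod]
        refine Finset.prod_eq_zero (i := j) ?_ ?_
        · exact Finset.mem_erase.2 ⟨hj, Finset.mem_univ _⟩
        · simp
      rw [this, zero_smul]
    · intro h; exact absurd (Finset.mem_univ _) h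
  rw [hg, Finset.sum_eq_single (0 : Fin (D+1))]
  · simp
  · intro j _ hj
    exact hzero j hj
  · intro h; exact absurd (Finset.mem_univ _) h

/-- Nakayama: finite-rank multiplications vanish. -/
lemma hN_of (𝔞 P : Ideal R) (hja : 𝔞 ≤ Ideal.jacobson ⊥) (hP : P ≤ 𝔞 • P) (x : R)
    (h : ∃ W : Submodule k R, Module.Finite k W ∧ ∀ y ∈ P, x * y ∈ W) :
    ∀ y ∈ P, x * y = 0 := by
  obtain ⟨W, hW, hxy⟩ := h
  let J : Submodule R R := Submodule.map (LinearMap.mulLeft R x) P
  have hJW : J.restrictScalars k ≤ W := by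
    rintro _ ⟨y, hy, rfl⟩
    exact hxy y hy
  have hfin : Module.Finite k (J.restrictScalars k) := Submodule.finiteDimensional_of_le hJW
  have hJfg : J.FG := Submodule.FG.of_restrictScalars k (Module.Finite.iff_fg.1 hfin)
  have hJ : J ≤ 𝔞 • J := by
    calc J ≤ Submodule.map (LinearMap.mulLeft R x) (𝔞 • P) := Submodule.map_mono hP
      _ = 𝔞 • J := Submodule.map_smul'' _ _ _
  have hbot := Submodule.eq_bot_of_le_smul_of_le_jacobson_bot 𝔞 J hJfg hJ hja
  intro y hy
  have : x * y ∈ J := ⟨y, hy, rfl⟩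
  rw [hbot] at this
  exact (Submodule.mem_bot R).1 this

end

end Pool.Agent.H546R4
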