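import Pool.Agent.H546R4.Chain

set_option autoImplicit false

namespace Pool.Agent.H546R4

open Polynomial

section

variable {k A : Type*} [Field k] [NonUnitalCommRing A] [Module k A] [IsScalarTower k A A]
  [SMulCommClass k A A]

/-- nilpotency of a (non-unital) subalgebra, as in the frozen statement -/
def Nilp {k A : Type*} [Field k] [NonUnitalRing A] [Module k A] [IsScalarTower k A A]
    [SMulCommClass k A A] (B : NonUnitalSubalgebra k A) : Prop :=
  ∃ n : ℕ, ∀ a ∈ B, ∀ l : List A, (∀ x ∈ l, x ∈ B) → l.length = n →
    l.foldl (fun x y => x * y) a = 0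

/-- the augmentation ideal of the unitization -/
noncomputable def aug (k A : Type*) [Field k] [NonUnitalCommRing A] [Module k A]
    [IsScalarTower k A A] [SMulCommClass k A A] : Ideal (Unitization k A) :=
  RingHom.ker (Unitization.fstHom k A)

lemma inr_mem_aug (a : A) : (a : Unitization k A) ∈ aug k A := by
  rw [aug, RingHom.mem_ker]
  exact Unitization.fst_inr k a

lemma mem_aug {x : Unitization k A} (hx : x ∈ aug k A) : ∃ a : A, (a : Unitization k A) = x := by
  rw [aug, RingHom.mem_ker] at hx
  refine ⟨x.snd, ?_⟩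
  apply Unitization.ext
  · rw [Unitization.fst_inr]; exact hx.symm
  · rw [Unitization.snd_inr]

lemma foldl_pow (m : ℕ) (I : Ideal (Unitization k A)) (l : List A)
    (hl : ∀ x ∈ l, (x : Unitization k A) ∈ I) :
    ∀ (a : A) (m : ℕ), (a : Unitization k A) ∈ I ^ m →
      ((l.foldl (fun x y => x * y) a : A) : Unitization k A) ∈ I ^ (m + l.length) := by
  induction l with
  | nil => intro a m ha; simpa using ha
  | cons b l ih =>
    intro a m ha
    rw [List.foldl_cons, List.length_cons]
    have h1 : ((a * b : A) : Unitization k A) ∈ I ^ (m + 1) := by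
      rw [Unitization.inr_mul, pow_succ]
      exact Ideal.mul_mem_mul ha (hl b (List.mem_cons_self))
    have h2 := ih (fun x hx => hl x (List.mem_cons_of_mem _ hx)) (a * b) (m + 1) h1
    rw [show m + (l.length + 1) = m + 1 + l.length by ring]
    exact h2

/-- the part of an ideal lying in `A` -/
def part (I : Ideal (Unitization k A)) : NonUnitalSubalgebra k A where
  carrier := {a | (a : Unitization k A) ∈ I}
  add_mem' := by
    intro a b ha hb
    simp only [Set.mem_setOf_eq, Unitization.inr_add] at *
    exact I.add_mem ha hb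
  zero_mem' := by simp
  mul_mem' := by
    intro a b ha hb
    simp only [Set.mem_setOf_eq, Unitization.inr_mul] at *
    exact I.mul_mem_left _ hb
  smul_mem' := by
    intro t a ha
    simp only [Set.mem_setOf_eq, Unitization.inr_smul] at *
    exact Submodule.smul_of_tower_mem I t ha

lemma pow_of_nilp (I : Ideal (Unitization k A)) (hI : I ≤ aug k A) (h : Nilp (part I)) :
    ∃ n, I ^ n = ⊥ := by
  obtain ⟨n, hn⟩ := h
  have hG : ∀ m, I ^ (m + 1) ≤ Ideal.span
      {x : Unitization k A | ∃ a ∈ part I, ∃ l : List A, (∀ x ∈ l, x ∈ part I) ∧ l.length = m ∧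
        x = ((l.foldl (fun x y => x * y) a : A) : Unitization k A)} := by
    intro m
    induction m with
    | zero =>
      intro x hx
      rw [zero_add, pow_one] at hx
      obtain ⟨a, rfl⟩ := mem_aug (hI hx)
      exact Ideal.subset_span ⟨a, hx, [], by simp, rfl, rfl⟩
    | succ m ih =>
      rw [pow_succ, Ideal.mul_le]
      intro x hx y hy
      have hx' := ih hx
      obtain ⟨b, rfl⟩ := mem_aug (hI hy)
      refine Submodule.span_induction (p := fun x _ => x * (b : Unitization k A) ∈ _)
        ?_ ?_ ?_ ?_ hx'
      · rintro _ ⟨a, ha, l, hl, hlen, rfl⟩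
        apply Ideal.subset_span
        refine ⟨a, ha, l ++ [b], ?_, by simp [hlen], ?_⟩
        · intro x hx
          rw [List.mem_append, List.mem_singleton] at hx
          rcases hx with hx | rfl
          · exact hl x hx
          · exact hy
        · rw [List.foldl_append, List.foldl_cons, List.foldl_nil, Unitization.inr_mul]
      · rw [zero_mul]; exact Submodule.zero_mem _
      · intro x y _ _ hx hy
        rw [add_mul]; exact Submodule.add_mem _ hx hy
      · intro r x _ hx
        rw [smul_eq_mul, mul_assoc]; exact Ideal.mul_mem_left _ _ hx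
  refine ⟨n + 1, ?_⟩
  rw [eq_bot_iff]
  refine (hG n).trans ?_
  rw [Ideal.span_le]
  rintro _ ⟨a, ha, l, hl, hlen, rfl⟩
  rw [hn a ha l hl hlen, Unitization.inr_zero]
  exact Submodule.zero_mem _

lemma foldl_prod (z : ℕ → A) (n : ℕ) :
    ((((List.range n).map (fun i => z (i+1))).foldl (fun x y => x * y) (z 0) : A) :
      Unitization k A) = ∏ i ∈ Finset.range (n+1), (z i : Unitization k A) := by
  induction n with
  | zero => simp
  | succ n ih =>
    rw [List.range_succ, List.map_append, List.foldl_append, List.map_cons, List.map_nil,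
      List.foldl_cons, List.foldl_nil, Unitization.inr_mul, ih, ← Finset.prod_range_succ]

/-- In a non-nilpotent commutative algebra with all proper subalgebras nilpotent,
an element with all powers non-zero gives an idempotent spanning everything. -/
lemma idem_case (hprop : ∀ B : NonUnitalSubalgebra k A, B ≠ ⊤ → Nilp B) (a : A)
    (ha : ¬ IsNilpotent (a : Unitization k A)) :
    ∃ e : A, e ≠ 0 ∧ e * e = e ∧ ∀ x : A, ∃ t : k, x = t • e := by
  classical
  -- general fact
  have hgen : ∀ b : A, ¬ IsNilpotent (b : Unitization k A) →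
      NonUnitalAlgebra.adjoin k {b} = ⊤ := by
    intro b hb
    by_contra hne
    obtain ⟨n, hn⟩ := hprop _ hne
    have hbm : b ∈ NonUnitalAlgebra.adjoin k {b} :=
      NonUnitalAlgebra.subset_adjoin k (Set.mem_singleton b)
    have h1 := hn b hbm ((List.range n).map (fun _ => b)) (by
      intro x hx
      rw [List.mem_map] at hx
      obtain ⟨_, _, rfl⟩ := hx
      exact hbm) (by simp)
    have h2 := foldl_prod (k := k) (fun _ => b) n
    rw [h1] at h2
    apply hb
    refine ⟨n + 1, ?_⟩
    rw [Unitization.inr_zero] at h2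
    simpa using h2.symm
  have hform : ∀ b x : A, x ∈ NonUnitalAlgebra.adjoin k {b} →
      ∃ u : Unitization k A, (x : Unitization k A) = (b : Unitization k A) * u := by
    intro b x hx
    induction hx using NonUnitalAlgebra.adjoin_induction with
    | mem x hx => exact ⟨1, by rw [Set.mem_singleton_iff.1 hx, mul_one]⟩
    | add x y _ _ hx hy =>
      obtain ⟨u, hu⟩ := hx
      obtain ⟨v, hv⟩ := hy
      exact ⟨u + v, by rw [Unitization.inr_add, hu, hv, mul_add]⟩
    | zero => exact ⟨0, by rw [Unitization.inr_zero, mul_zero]⟩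
    | mul x y _ _ hx hy =>
      obtain ⟨u, hu⟩ := hx
      exact ⟨u * y, by rw [Unitization.inr_mul, hu, mul_assoc]⟩
    | smul t x _ hx =>
      obtain ⟨u, hu⟩ := hx
      exact ⟨t • u, by rw [Unitization.inr_smul, hu, mul_smul_comm]⟩
  have ha2 : ¬ IsNilpotent ((a * a : A) : Unitization k A) := by
    rintro ⟨n, hn⟩
    apply ha
    refine ⟨2 * n, ?_⟩
    rw [Unitization.inr_mul] at hn
    rw [pow_mul, pow_two]
    exact hn
  have hatop : a ∈ NonUnitalAlgebra.adjoin k {a * a} := by
    rw [hgen _ ha2]; exact NonUnitalAlgebra.mem_top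
  obtain ⟨u, hu⟩ := hform _ _ hatop
  -- e with inr e = a * u
  obtain ⟨e, he⟩ := mem_aug (k := k) (A := A) ((aug k A).mul_mem_right u (inr_mem_aug a))
  have hae : (a : Unitization k A) * (e : Unitization k A) = a := by
    rw [he]
    conv_rhs => rw [hu, Unitization.inr_mul]
    ring
  have hee : (e : Unitization k A) * (e : Unitization k A) = (e : Unitization k A) := by
    calc (e : Unitization k A) * (e : Unitization k A)
        = ((a : Unitization k A) * u) * (e : Unitization k A) := by rw [← he]
      _ = ((a : Unitization k A) * (e : Unitization k A)) * u := by ring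
      _ = (e : Unitization k A) := by rw [hae, he]
  have hee' : e * e = e := by
    apply Unitization.inr_injective (R := k)
    rw [Unitization.inr_mul, hee]
  have hane : a ≠ 0 := by
    rintro rfl
    exact ha ⟨1, by simp⟩
  have hene : e ≠ 0 := by
    rintro rfl
    apply hane
    apply Unitization.inr_injective (R := k)
    rw [← hae]; simp
  refine ⟨e, hene, hee', ?_⟩
  have hen : ¬ IsNilpotent (e : Unitization k A) := by
    rintro ⟨n, hn⟩
    have hidem : IsIdempotentElem (e : Unitization k A) := hee
    rcases Nat.eq_zero_or_pos n with h0 | h0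
    · rw [h0, pow_zero] at hn
      apply hene
      apply Unitization.inr_injective (R := k)
      rw [Unitization.inr_zero, ← mul_one (e : Unitization k A), hn, mul_zero]
    · rw [hidem.pow_eq (by omega)] at hn
      apply hene
      apply Unitization.inr_injective (R := k)
      rw [hn, Unitization.inr_zero]
  have htop := hgen e hen
  intro x
  have hx : x ∈ NonUnitalAlgebra.adjoin k {e} := by rw [htop]; exact NonUnitalAlgebra.mem_top
  induction hx using NonUnitalAlgebra.adjoin_induction with
  | mem x hx => exact ⟨1, by rw [Set.mem_singleton_iff.1 hx, one_smul]⟩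
  | add x y _ _ hx hy =>
    obtain ⟨u, hu⟩ := hx
    obtain ⟨v, hv⟩ := hy
    exact ⟨u + v, by rw [hu, hv, add_smul]⟩
  | zero => exact ⟨0, by rw [zero_smul]⟩
  | mul x y _ _ hx hy =>
    obtain ⟨u, hu⟩ := hx
    obtain ⟨v, hv⟩ := hy
    exact ⟨u * v, by rw [hu, hv, smul_mul_smul_comm, hee']⟩
  | smul t x _ hx =>
    obtain ⟨u, hu⟩ := hx
    exact ⟨t * u, by rw [hu, smul_smul]⟩

theorem comm_thm [CharZero k] (hprop : ∀ B : NonUnitalSubalgebra k A, B ≠ ⊤ → Nilp B)
    (hnot : ¬ Nilp (⊤ : NonUnitalSubalgebra k A)) :
    ∃ e : A, e ≠ 0 ∧ e * e = e ∧ ∀ x : A, ∃ t : k, x = t • e := by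
  classical
  by_cases hnil : ∀ a : A, IsNilpotent (a : Unitization k A)
  swap
  · push Not at hnil
    obtain ⟨a, ha⟩ := hnil
    exact idem_case hprop a ha
  exfalso
  have hnil' : ∀ x ∈ aug k A, IsNilpotent x := by
    intro x hx
    obtain ⟨a, rfl⟩ := mem_aug hx
    exact hnil a
  have hpowbot : ∀ n, (aug k A) ^ n ≠ ⊥ := by
    intro n hn
    apply hnot
    refine ⟨n, ?_⟩
    intro a _ l _ hl
    have h1 := foldl_pow 0 (aug k A) l (fun x _ => inr_mem_aug x) a 1 (by
      rw [pow_one]; exact inr_mem_aug a)
    rw [hl] at h1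
    have h2 : (aug k A) ^ (1 + n) = ⊥ := by
      rw [pow_add, hn]; simp
    rw [h2, Submodule.mem_bot] at h1
    apply Unitization.inr_injective (R := k)
    rw [h1, Unitization.inr_zero]
  have hsq : aug k A * aug k A = aug k A := by
    apply le_antisymm Ideal.mul_le_right
    by_contra hcon
    have hle : aug k A * aug k A ≤ aug k A := Ideal.mul_le_right
    have hne : part (aug k A * aug k A) ≠ ⊤ := by
      intro h
      apply hcon
      intro x hx
      obtain ⟨a, rfl⟩ := mem_aug hx
      have : a ∈ part (aug k A * aug k A) := by rw [h]; exact NonUnitalAlgebra.mem_top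
      exact this
    obtain ⟨n, hn⟩ := pow_of_nilp _ hle (hprop _ hne)
    apply hpowbot (2 * n)
    rw [pow_mul, pow_two]
    exact hn
  have h0 : aug k A ≠ ⊥ := by
    have := hpowbot 1
    rwa [pow_one] at this
  obtain ⟨c, hc, hc0⟩ := Submodule.exists_mem_ne_zero_of_ne_bot h0
  have hcbot : c ∉ (⊥ : Subalgebra k (Unitization k A)) := by
    intro h
    rw [Algebra.mem_bot] at h
    obtain ⟨t, rfl⟩ := h
    apply hc0
    have h1 := hc
    rw [aug, RingHom.mem_ker] at h1
    have h2 : t = 0 := by
      simpa [Unitization.algebraMap_eq_inl] using h1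
    rw [h2, map_zero]
  obtain ⟨S, z, hcS, hz, hprod⟩ := chain (k := k) (aug k A) hnil' hsq h0 c hcbot
  have hz' : ∀ n, ∃ a : A, (a : Unitization k A) = z n := fun n => mem_aug (hz n).1
  choose zz hzz using hz'
  let B : NonUnitalSubalgebra k A :=
    { carrier := {a | (a : Unitization k A) ∈ S}
      add_mem' := by
        intro a b ha hb
        simp only [Set.mem_setOf_eq, Unitization.inr_add] at *
        exact S.add_mem ha hb
      zero_mem' := by simp
      mul_mem' := by
        intro a b ha hb
        simp only [Set.mem_setOf_eq, Unitization.inr_mul] at *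
        exact S.mul_mem ha hb
      smul_mem' := by
        intro t a ha
        simp only [Set.mem_setOf_eq, Unitization.inr_smul] at *
        exact S.smul_mem ha t }
  have hBne : B ≠ ⊤ := by
    intro h
    apply hcS
    obtain ⟨a, rfl⟩ := mem_aug hc
    have : a ∈ B := by rw [h]; exact NonUnitalAlgebra.mem_top
    exact this
  obtain ⟨n, hn⟩ := hprop B hBne
  have hzB : ∀ i, zz i ∈ B := by
    intro i
    change ((zz i : A) : Unitization k A) ∈ S
    rw [hzz]; exact (hz i).2
  have h1 := hn (zz 0) (hzB 0) ((List.range n).map (fun i => zz (i+1))) (by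
    intro x hx
    rw [List.mem_map] at hx
    obtain ⟨i, _, rfl⟩ := hx
    exact hzB _) (by simp)
  have h2 := foldl_prod (k := k) zz n
  rw [h1, Unitization.inr_zero] at h2
  apply hprod (n+1)
  rw [h2]
  exact Finset.prod_congr rfl fun i _ => (hzz i).symm

end

end Pool.Agent.H546R4
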